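import Pool.Agent.Helper70.EngelFinal

/-!
A leafwise contact structure, splitting as a sum of line fields, of a cooriented codimension one
foliation of a closed connected oriented 4-manifold, which is not `C^0`-close to any Engel
structure.
-/

open scoped Manifold ContDiff
open Pool.Agent.EngelPerturbation

namespace Pool.Agent.Results.MP_d7c110_gt.NoEngelNearContact

theorem result : ∃ (M : Type) (_ : TopologicalSpace M) (_ : T2Space M) (_ : CompactSpace M)
    (_ : ConnectedSpace M) (_ : ChartedSpace (EuclideanSpace ℝ (Fin 4)) M)
    (_ : IsManifold (𝓡 4) ∞ M), HasContactFarFromEngel (𝓡 4) M :=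
  ⟨Pool.Agent.Helper70.Engel.M, inferInstance, inferInstance, inferInstance, inferInstance,
    inferInstance, inferInstance, Pool.Agent.Helper70.Engel.counterexample⟩

end Pool.Agent.Results.MP_d7c110_gt.NoEngelNearContact
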